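import Pool.Agent.W58.Gr.Core

/-!
# A one-sided greedy labelling of a tree in breadth first order

The vertices at even distance from the root get the numbers `0, 1, 2, …` in breadth first order.  The
vertices at odd distance get increasing numbers, each of them the least one for which the sum with
the number of the parent does not meet a sum of an earlier vertex at odd distance with one of its
children.  All sums along edges are then distinct and the last number is at most `m - 1`.
-/

set_option autoImplicit false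

namespace Pool.Agent.TH5.Tree

open Pool.Agent.W58.Gr Finset

variable {m : ℕ} (B : BFS m)

/-- the number of vertices at even distance before `j` -/
def xx (j : ℕ) : ℕ := ((range j).filter (fun i => B.lev i % 2 = 0)).card

lemma xx_mono {i j : ℕ} (h : i ≤ j) : xx B i ≤ xx B j := by
  unfold xx
  apply card_le_card
  apply filter_subset_filter
  exact range_subset_range.2 h

lemma xx_lt {i j : ℕ} (h : i < j) (hi : B.lev i % 2 = 0) : xx B i < xx B j := by
  unfold xx
  apply card_lt_card
  rw [ssubset_iff_of_subset (filter_subset_filter _ (range_subset_range.2 h.le))]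
  refine ⟨i, ?_, ?_⟩
  · simp [h, hi]
  · simp

lemma xx_inj {i j : ℕ} (hi : B.lev i % 2 = 0) (hj : B.lev j % 2 = 0) (h : xx B i = xx B j) :
    i = j := by
  rcases lt_trichotomy i j with h1 | h1 | h1
  · exact absurd h (xx_lt B h1 hi).ne
  · exact h1
  · exact absurd h (xx_lt B h1 hj).ne'

/-- the indices of the vertices at even distance which are children of vertices before `j` -/
def ev (j : ℕ) : Finset ℕ := (Icc 1 m).filter (fun i => B.lev i % 2 = 0 ∧ B.π i < j)

/-- the indices of the vertices at odd distance before `j` -/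
def od (j : ℕ) : Finset ℕ := (range j).filter (fun i => B.lev i % 2 = 1)

lemma lev_pi_odd {j : ℕ} (h1 : 1 ≤ j) (h2 : j ≤ m) (h : B.lev j % 2 = 1) :
    B.lev (B.π j) % 2 = 0 := by
  have := B.levs j h1 h2
  omega

lemma lev_pi_even {j : ℕ} (h1 : 1 ≤ j) (h2 : j ≤ m) (h : B.lev j % 2 = 0) :
    B.lev (B.π j) % 2 = 1 := by
  have := B.levs j h1 h2
  omega

lemma one_le_of_odd {j : ℕ} (h : B.lev j % 2 = 1) : 1 ≤ j := by
  rcases Nat.eq_zero_or_pos j with h0 | h0
  · rw [h0, B.lev0] at h
    omega
  · exact h0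

/-- the state of the greedy procedure before the vertex `j` -/
structure State (j : ℕ) (y : ℕ → ℕ) (Y p : ℕ) : Prop where
  incr : ∀ b b', b < b' → b' < j → B.lev b % 2 = 1 → B.lev b' % 2 = 1 → y b < y b'
  ltY : ∀ b, b < j → B.lev b % 2 = 1 → y b < Y
  next : ∀ b, j ≤ b → b ≤ m → B.lev b % 2 = 1 → p ≤ xx B (B.π b)
  ptr : ∀ b, b < j → B.lev b % 2 = 1 → xx B (B.π b) + y b < p + Y
  free : ∀ b, b < j → B.lev b % 2 = 1 → ∀ i ∈ ev B j, xx B (B.π b) + y b ≠ xx B i + y (B.π i)
  count : Y ≤ (od B j).card + ((ev B j).filter (fun i => xx B i + y (B.π i) < p + Y)).card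

lemma state_zero : State B 0 (fun _ => 0) 0 0 := by
  refine ⟨?_, ?_, ?_, ?_, ?_, ?_⟩
  · intro b b' _ h; omega
  · intro b h; omega
  · intro b _ _ _; exact Nat.zero_le _
  · intro b h; omega
  · intro b h; omega
  · exact Nat.zero_le _

lemma step_even {j : ℕ} (hj : j ≤ m) (hlev : B.lev j % 2 = 0) {y : ℕ → ℕ} {Y p : ℕ}
    (S : State B j y Y p) : State B (j + 1) y Y p := by
  have hev : ev B (j + 1) = ev B j := by
    unfold ev
    apply filter_congr
    intro i hi
    rw [mem_Icc] at hi
    constructor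
    · rintro ⟨h1, h2⟩
      refine ⟨h1, ?_⟩
      have h3 := lev_pi_even B hi.1 hi.2 h1
      rcases Nat.lt_succ_iff_lt_or_eq.1 h2 with h4 | h4
      · exact h4
      · rw [h4] at h3; omega
    · rintro ⟨h1, h2⟩
      exact ⟨h1, by omega⟩
  have hod : od B (j + 1) = od B j := by
    unfold od
    ext i
    simp only [mem_filter, mem_range]
    constructor
    · rintro ⟨h1, h2⟩
      refine ⟨?_, h2⟩
      rcases Nat.lt_succ_iff_lt_or_eq.1 h1 with h4 | h4
      · exact h4
      · rw [h4] at h2; omega
    · rintro ⟨h1, h2⟩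
      exact ⟨by omega, h2⟩
  have hlt : ∀ b, b < j + 1 → B.lev b % 2 = 1 → b < j := by
    intro b h1 h2
    rcases Nat.lt_succ_iff_lt_or_eq.1 h1 with h4 | h4
    · exact h4
    · rw [h4] at h2; omega
  refine ⟨?_, ?_, ?_, ?_, ?_, ?_⟩
  · intro b b' h1 h2 h3 h4
    exact S.incr b b' h1 (hlt b' h2 h4) h3 h4
  · intro b h1 h2
    exact S.ltY b (hlt b h1 h2) h2
  · intro b h1 h2 h3
    exact S.next b (by omega) h2 h3
  · intro b h1 h2
    exact S.ptr b (hlt b h1 h2) h2
  · intro b h1 h2
    rw [hev]
    exact S.free b (hlt b h1 h2) h2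
  · rw [hev, hod]
    exact S.count

lemma step_odd {j : ℕ} (hj : j ≤ m) (hlev : B.lev j % 2 = 1) {y : ℕ → ℕ} {Y p : ℕ}
    (S : State B j y Y p) : ∃ y' Y' p', State B (j + 1) y' Y' p' := by
  classical
  have hj1 := one_le_of_odd B hlev
  set q : ℕ := xx B (B.π j) with hq
  have hpq : p ≤ q := S.next j le_rfl hj hlev
  set u : ℕ → ℕ := fun i => xx B i + y (B.π i) with hu
  have hex : ∃ t, Y ≤ t ∧ q + t ∉ (ev B j).image u := by
    have hfin : ((ev B j).image u : Set ℕ).Finite := Finset.finite_toSet _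
    obtain ⟨M, hM⟩ := hfin.bddAbove
    refine ⟨Y + M + 1, by omega, fun h => ?_⟩
    have := hM (Finset.mem_coe.2 h)
    omega
  obtain ⟨t, ⟨hYt, htU⟩, hmin⟩ : ∃ t, (Y ≤ t ∧ q + t ∉ (ev B j).image u) ∧
      ∀ s, s < t → ¬ (Y ≤ s ∧ q + s ∉ (ev B j).image u) :=
    ⟨Nat.find hex, Nat.find_spec hex, fun s hs => Nat.find_min hex hs⟩
  have hpj : B.π j < j := B.lt j hj1 hj
  -- the new children
  have hev : ∀ i, i ∈ ev B (j + 1) ↔ i ∈ ev B j ∨ (i ∈ Icc 1 m ∧ B.lev i % 2 = 0 ∧ B.π i = j) := by
    intro i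
    unfold ev
    simp only [mem_filter]
    constructor
    · rintro ⟨h1, h2, h3⟩
      rcases Nat.lt_succ_iff_lt_or_eq.1 h3 with h4 | h4
      · exact Or.inl ⟨h1, h2, h4⟩
      · exact Or.inr ⟨h1, h2, h4⟩
    · rintro (⟨h1, h2, h3⟩ | ⟨h1, h2, h3⟩)
      · exact ⟨h1, h2, by omega⟩
      · exact ⟨h1, h2, by omega⟩
  have hodj : od B (j + 1) = insert j (od B j) := by
    unfold od
    rw [Finset.range_add_one, filter_insert, if_pos hlev]
  have hodc : (od B (j + 1)).card = (od B j).card + 1 := by
    rw [hodj, card_insert_of_notMem]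
    unfold od
    simp
  set y' : ℕ → ℕ := Function.update y j t with hy'
  have hy'j : y' j = t := by rw [hy']; simp
  have hy'n : ∀ b, b ≠ j → y' b = y b := fun b hb => by rw [hy']; simp [hb]
  have hold : ∀ i ∈ ev B j, xx B i + y' (B.π i) = u i := by
    intro i hi
    unfold ev at hi
    rw [mem_filter] at hi
    rw [hy'n _ (by omega)]
  refine ⟨y', t + 1, q, ?_, ?_, ?_, ?_, ?_, ?_⟩
  · intro b b' h1 h2 h3 h4
    rw [hy'n b (by omega)]
    rcases Nat.lt_succ_iff_lt_or_eq.1 h2 with h5 | h5
    · rw [hy'n b' (by omega)]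
      exact S.incr b b' h1 h5 h3 h4
    · rw [h5, hy'j]
      exact (S.ltY b (by omega) h3).trans_le hYt
  · intro b h1 h2
    rcases Nat.lt_succ_iff_lt_or_eq.1 h1 with h5 | h5
    · rw [hy'n b (by omega)]
      have := S.ltY b h5 h2
      omega
    · rw [h5, hy'j]
      omega
  · intro b h1 h2 h3
    exact xx_mono B (B.mono j b hj1 (by omega) h2)
  · intro b h1 h2
    rcases Nat.lt_succ_iff_lt_or_eq.1 h1 with h5 | h5
    · rw [hy'n b (by omega)]
      have := S.ptr b h5 h2
      omega
    · rw [h5, hy'j]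
      omega
  · intro b h1 h2 i hi
    rcases (hev i).1 hi with h3 | ⟨h3, h4, h5⟩
    · rw [hold i h3]
      rcases Nat.lt_succ_iff_lt_or_eq.1 h1 with h6 | h6
      · rw [hy'n b (by omega)]
        exact S.free b h6 h2 i h3
      · rw [h6, hy'j]
        intro h7
        apply htU
        rw [mem_image]
        exact ⟨i, h3, h7.symm⟩
    · rw [mem_Icc] at h3
      have h6 : B.π i < i := B.lt i h3.1 h3.2
      have h7 : q < xx B i := xx_lt B (by omega) (lev_pi_odd B hj1 hj hlev)
      rw [h5, hy'j]
      rcases Nat.lt_succ_iff_lt_or_eq.1 h1 with h8 | h8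
      · rw [hy'n b (by omega)]
        have := S.ptr b h8 h2
        omega
      · rw [h8, hy'j]
        omega
  · rw [hodc]
    -- the sums that are passed
    have hsub : (ev B j).filter (fun i => u i < p + Y) ∪ (ev B j).filter (fun i => q + Y ≤ u i ∧ u i < q + t)
        ⊆ (ev B (j + 1)).filter (fun i => xx B i + y' (B.π i) < q + (t + 1)) := by
      intro i hi
      rw [mem_union, mem_filter, mem_filter] at hi
      rw [mem_filter]
      rcases hi with ⟨h1, h2⟩ | ⟨h1, h2, h3⟩
      · refine ⟨(hev i).2 (Or.inl h1), ?_⟩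
        rw [hold i h1]
        omega
      · refine ⟨(hev i).2 (Or.inl h1), ?_⟩
        rw [hold i h1]
        omega
    have hdisj : Disjoint ((ev B j).filter (fun i => u i < p + Y))
        ((ev B j).filter (fun i => q + Y ≤ u i ∧ u i < q + t)) := by
      rw [disjoint_left]
      intro i h1 h2
      rw [mem_filter] at h1 h2
      omega
    have h1 := card_le_card hsub
    rw [card_union_of_disjoint hdisj] at h1
    have h2 : t - Y ≤ ((ev B j).filter (fun i => q + Y ≤ u i ∧ u i < q + t)).card := by
      have h3 : Ico (q + Y) (q + t) ⊆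
          ((ev B j).filter (fun i => q + Y ≤ u i ∧ u i < q + t)).image u := by
        intro s hs
        rw [mem_Ico] at hs
        have h4 := hmin (s - q) (by omega)
        have h5 : q + (s - q) ∈ (ev B j).image u := by
          by_contra h6
          exact h4 ⟨by omega, h6⟩
        rw [show q + (s - q) = s by omega, mem_image] at h5
        obtain ⟨i, h6, h7⟩ := h5
        rw [mem_image]
        refine ⟨i, ?_, h7⟩
        rw [mem_filter]
        refine ⟨h6, ?_, ?_⟩
        · omega
        · omega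
      have h4 := (card_le_card h3).trans card_image_le
      rw [Nat.card_Ico] at h4
      omega
    have h3 := S.count
    have h4 : ((ev B j).filter (fun i => xx B i + y (B.π i) < p + Y)).card =
      ((ev B j).filter (fun i => u i < p + Y)).card := rfl
    omega

lemma exists_state : ∀ j, j ≤ m + 1 → ∃ y Y p, State B j y Y p := by
  intro j
  induction j with
  | zero => intro _; exact ⟨_, _, _, state_zero B⟩
  | succ j ih =>
    intro hj
    obtain ⟨y, Y, p, S⟩ := ih (by omega)
    rcases Nat.mod_two_eq_zero_or_one (B.lev j) with h | h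
    · exact ⟨y, Y, p, step_even B (by omega) h S⟩
    · exact step_odd B (by omega) h S

lemma card_split : (od B (m + 1)).card + (ev B (m + 1)).card = m := by
  have h1 : od B (m + 1) = (Icc 1 m).filter (fun i => B.lev i % 2 = 1) := by
    unfold od
    ext i
    simp only [mem_filter, mem_range, mem_Icc]
    constructor
    · rintro ⟨h1, h2⟩
      exact ⟨⟨one_le_of_odd B h2, by omega⟩, h2⟩
    · rintro ⟨h1, h2⟩
      exact ⟨by omega, h2⟩
  have h2 : ev B (m + 1) = (Icc 1 m).filter (fun i => ¬ B.lev i % 2 = 1) := by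
    unfold ev
    apply filter_congr
    intro i hi
    rw [mem_Icc] at hi
    have := B.lt i hi.1 hi.2
    constructor
    · rintro ⟨h1, h2⟩; omega
    · intro h1
      exact ⟨by omega, by omega⟩
  rw [h1, h2, card_filter_add_card_filter_not, Nat.card_Icc]
  omega

/-- the edge `k` joins `k` and its parent; this is the sum along that edge -/
def edgeSum (y : ℕ → ℕ) (k : ℕ) : ℕ :=
  if B.lev k % 2 = 1 then xx B (B.π k) + y k else xx B k + y (B.π k)

theorem exists_greedy : ∃ y : ℕ → ℕ,
    (∀ b b', b < b' → b' ≤ m → B.lev b % 2 = 1 → B.lev b' % 2 = 1 → y b < y b') ∧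
    (∀ b, b ≤ m → B.lev b % 2 = 1 → y b + 1 ≤ m) ∧
    (∀ k k', 1 ≤ k → k < k' → k' ≤ m → edgeSum B y k ≠ edgeSum B y k') := by
  obtain ⟨y, Y, p, S⟩ := exists_state B (m + 1) le_rfl
  have hY : Y ≤ m := by
    have h1 := S.count
    have h2 := card_split B
    have h3 := card_filter_le (ev B (m + 1)) (fun i => xx B i + y (B.π i) < p + Y)
    omega
  have hmem : ∀ i, 1 ≤ i → i ≤ m → B.lev i % 2 = 0 → i ∈ ev B (m + 1) := by
    intro i h1 h2 h3
    unfold ev
    rw [mem_filter, mem_Icc]
    have := B.lt i h1 h2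
    exact ⟨⟨h1, h2⟩, h3, by omega⟩
  refine ⟨y, ?_, ?_, ?_⟩
  · intro b b' h1 h2 h3 h4
    exact S.incr b b' h1 (by omega) h3 h4
  · intro b h1 h2
    have := S.ltY b (by omega) h2
    omega
  · intro k k' h1 h2 h3
    unfold edgeSum
    rcases Nat.mod_two_eq_zero_or_one (B.lev k) with h4 | h4 <;>
    rcases Nat.mod_two_eq_zero_or_one (B.lev k') with h5 | h5
    · rw [if_neg (by omega), if_neg (by omega)]
      have h6 := xx_lt B h2 h4
      have h7 := B.mono k k' h1 h2.le h3
      have h8 : y (B.π k) ≤ y (B.π k') := by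
        rcases h7.lt_or_eq with h8 | h8
        · exact (S.incr _ _ h8 (by have := B.lt k' (by omega) h3; omega)
            (lev_pi_even B h1 (by omega) h4) (lev_pi_even B (by omega) h3 h5)).le
        · rw [h8]
      omega
    · rw [if_neg (by omega), if_pos h5]
      exact fun h => S.free k' (by omega) h5 k (hmem k h1 (by omega) h4) h.symm
    · rw [if_pos h4, if_neg (by omega)]
      exact S.free k (by omega) h4 k' (hmem k' (by omega) h3 h5)
    · rw [if_pos h4, if_pos h5]
      have h6 := S.incr k k' h2 (by omega) h4 h5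
      have h7 := xx_mono B (B.mono k k' h1 h2.le h3)
      omega

end Pool.Agent.TH5.Tree
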