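import Pool.Agent.W58.Gr.Enum
import Pool.Agent.TH5.Tree.Greedy

/-!
# Trees: numbers with distinct sums along the edges
-/

set_option autoImplicit false

namespace Pool.Agent.TH5.Tree

open Pool.Agent.W58.Gr Finset

variable {V : Type} [Fintype V] {T : SimpleGraph V}

omit [Fintype V] in
lemma color_walk {c : V → Bool} (hc : ∀ u v, T.Adj u v → c u ≠ c v) :
    ∀ {u v : V} (p : T.Walk u v), (c v = c u ↔ p.length % 2 = 0) := by
  intro u v p
  induction p with
  | nil => simp
  | cons h p ih =>
    rename_i a b d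
    rw [SimpleGraph.Walk.length_cons]
    have h1 := hc a b h
    have h2 : (c d = c a) ↔ ¬ (c d = c b) := by
      cases hca : c a <;> cases hcb : c b <;> cases hcd : c d <;> simp_all
    rw [h2, ih]
    omega

lemma color_dist (hT : T.IsTree) {c : V → Bool} (hc : ∀ u v, T.Adj u v → c u ≠ c v) (r v : V) :
    c v = c r ↔ T.dist r v % 2 = 0 := by
  obtain ⟨p, hp⟩ := hT.1.exists_walk_length_eq_dist r v
  rw [← hp]
  exact color_walk hc p

/-- Let `T` be a finite tree with `m` edges, properly coloured by `c`, and let `s` be a colour.  There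
are numbers `g v`, distinct on each colour class, at most `m - 1`, and less than the size of the class
for the vertices of colour `s`, such that the sums `g u + g v` along the edges `u v` are distinct. -/
theorem exists_sums (hT : T.IsTree) (c : V → Bool) (hc : ∀ u v, T.Adj u v → c u ≠ c v) (s : Bool) :
    ∃ g : V → ℕ, (∀ u v, c u = c v → g u = g v → u = v) ∧
      (∀ v, c v = s → g v < {w : V | c w = s}.ncard) ∧
      (∀ v, c v ≠ s → g v ≤ T.edgeSet.ncard - 1) ∧
      (∀ u v u' v', T.Adj u v → T.Adj u' v' → g u + g v = g u' + g v' → s(u, v) = s(u', v')) := by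
  classical
  set m : ℕ := T.edgeSet.ncard with hm
  have hcard : Fintype.card V = m + 1 := by
    have h1 := hT.card_edgeFinset
    rw [hm, Set.ncard_eq_toFinset_card', ← h1]
    rfl
  by_cases hs : ∃ r, c r = s
  swap
  · -- no vertex has colour `s`: one vertex only
    have hno : ∀ u v, ¬ T.Adj u v := by
      intro u v h
      have h1 := hc u v h
      have h2 : c u ≠ s := fun h => hs ⟨u, h⟩
      have h3 : c v ≠ s := fun h => hs ⟨v, h⟩
      cases hcu : c u <;> cases hcv : c v <;> cases s <;> simp_all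
    have hm0 : m = 0 := by
      rw [hm, Set.ncard_eq_zero (Set.toFinite _), Set.eq_empty_iff_forall_notMem]
      intro e
      induction e using Sym2.ind with
      | _ x y => exact hno x y
    rw [hm0] at hcard
    have hsub : ∀ u v : V, u = v := fun u v => Fintype.card_le_one_iff.1 hcard.le u v
    refine ⟨fun _ => 0, fun u v _ _ => hsub u v, fun v hv => absurd ⟨v, hv⟩ hs, fun v _ => Nat.zero_le _,
      fun u v _ _ h => absurd h (hno u v)⟩
  obtain ⟨r, hr⟩ := hs
  obtain ⟨B, e, he, hinj, hsurj, hlev, hadj⟩ := exists_bfs hT r hcard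
  obtain ⟨y, hy1, hy2, hy3⟩ := exists_greedy B
  have hpar : ∀ v, c v = s ↔ B.lev (e v) % 2 = 0 := by
    intro v
    rw [hlev, ← hr]
    exact color_dist hT hc r v
  set g : V → ℕ := fun v => if B.lev (e v) % 2 = 0 then xx B (e v) else y (e v) with hg
  have hy_inj : ∀ i j, i ≤ m → j ≤ m → B.lev i % 2 = 1 → B.lev j % 2 = 1 → y i = y j → i = j := by
    intro i j hi hj h1 h2 h3
    rcases lt_trichotomy i j with h4 | h4 | h4
    · exact absurd h3 (hy1 i j h4 hj h1 h2).ne
    · exact h4
    · exact absurd h3 (hy1 j i h4 hi h2 h1).ne'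
  -- the sum along an edge
  have key : ∀ k, 1 ≤ k → k ≤ m → (if B.lev (B.π k) % 2 = 0 then xx B (B.π k) else y (B.π k)) +
      (if B.lev k % 2 = 0 then xx B k else y k) = edgeSum B y k := by
    intro k h1 h2
    unfold edgeSum
    rcases Nat.mod_two_eq_zero_or_one (B.lev k) with h3 | h3
    · have h4 := lev_pi_even B h1 h2 h3
      have h5 : ¬ B.lev (B.π k) % 2 = 0 := by omega
      have h6 : ¬ B.lev k % 2 = 1 := by omega
      rw [if_neg h5, if_pos h3, if_neg h6, add_comm]
    · have h4 := lev_pi_odd B h1 h2 h3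
      have h5 : ¬ B.lev k % 2 = 0 := by omega
      rw [if_pos h4, if_neg h5, if_pos h3]
  have hsum : ∀ u v, T.Adj u v → ∃ k, 1 ≤ k ∧ k ≤ m ∧ g u + g v = edgeSum B y k ∧
      ((e v = k ∧ e u = B.π k) ∨ (e u = k ∧ e v = B.π k)) := by
    intro u v huv
    rcases hadj u v huv with ⟨h1, h2⟩ | ⟨h1, h2⟩
    · refine ⟨e v, h1, he v, ?_, Or.inl ⟨rfl, h2.symm⟩⟩
      rw [← key (e v) h1 (he v), h2]
    · refine ⟨e u, h1, he u, ?_, Or.inr ⟨rfl, h2.symm⟩⟩
      rw [← key (e u) h1 (he u), h2, add_comm]
  refine ⟨g, ?_, ?_, ?_, ?_⟩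
  · intro u v h1 h2
    rw [hg] at h2
    simp only at h2
    have h3 : B.lev (e u) % 2 = 0 ↔ B.lev (e v) % 2 = 0 := by
      rw [← hpar, ← hpar, h1]
    apply hinj
    rcases Nat.mod_two_eq_zero_or_one (B.lev (e u)) with h4 | h4
    · rw [if_pos h4, if_pos (h3.1 h4)] at h2
      exact xx_inj B h4 (h3.1 h4) h2
    · have h5 : ¬ B.lev (e v) % 2 = 0 := fun h => by have := h3.2 h; omega
      rw [if_neg (by omega), if_neg h5] at h2
      exact hy_inj _ _ (he u) (he v) h4 (by omega) h2
  · intro v hv
    have h1 := (hpar v).1 hv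
    rw [hg]
    simp only
    rw [if_pos h1]
    have h2 : {w : V | c w = s}.ncard = ((univ : Finset V).filter (fun w => c w = s)).card := by
      rw [← Set.ncard_coe_finset]
      congr 1
      ext w
      simp
    rw [h2]
    have h3 : ((univ : Finset V).filter (fun w => c w = s)).card =
        (((univ : Finset V).filter (fun w => c w = s)).image e).card :=
      (card_image_of_injective _ hinj).symm
    rw [h3]
    unfold xx
    apply card_lt_card
    rw [ssubset_iff_of_subset]
    · refine ⟨e v, ?_, by simp⟩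
      rw [mem_image]
      exact ⟨v, by simp [hv], rfl⟩
    · intro i hi
      rw [mem_filter, mem_range] at hi
      obtain ⟨w, hw⟩ := hsurj i (by have := he v; omega)
      rw [mem_image]
      refine ⟨w, ?_, hw⟩
      rw [mem_filter]
      refine ⟨mem_univ _, (hpar w).2 ?_⟩
      rw [hw]
      exact hi.2
  · intro v hv
    have h1 : B.lev (e v) % 2 = 1 := by
      have h2 : ¬ B.lev (e v) % 2 = 0 := fun h => hv ((hpar v).2 h)
      omega
    rw [hg]
    simp only
    rw [if_neg (by omega)]
    have := hy2 (e v) (he v) h1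
    omega
  · intro u v u' v' h1 h2 h3
    obtain ⟨k, hk1, hk2, hk3, hk4⟩ := hsum u v h1
    obtain ⟨k', hk1', hk2', hk3', hk4'⟩ := hsum u' v' h2
    have hkk : k = k' := by
      rcases lt_trichotomy k k' with h4 | h4 | h4
      · exact absurd (by rw [← hk3, ← hk3', h3]) (hy3 k k' hk1 h4 hk2')
      · exact h4
      · exact absurd (by rw [← hk3, ← hk3', h3]) (hy3 k' k hk1' h4 hk2)
    subst hkk
    rcases hk4 with ⟨h4, h5⟩ | ⟨h4, h5⟩ <;> rcases hk4' with ⟨h6, h7⟩ | ⟨h6, h7⟩
    · have h8 : v = v' := hinj (h4.trans h6.symm)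
      have h9 : u = u' := hinj (h5.trans h7.symm)
      rw [h8, h9]
    · have h8 : v = u' := hinj (h4.trans h6.symm)
      have h9 : u = v' := hinj (h5.trans h7.symm)
      rw [h8, h9, Sym2.eq_swap]
    · have h8 : u = v' := hinj (h4.trans h6.symm)
      have h9 : v = u' := hinj (h5.trans h7.symm)
      rw [h8, h9, Sym2.eq_swap]
    · have h8 : u = u' := hinj (h4.trans h6.symm)
      have h9 : v = v' := hinj (h5.trans h7.symm)
      rw [h8, h9]

end Pool.Agent.TH5.Tree
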